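import Pool.Agent.W2helper74.SOS.Stm

/-!
# Piece J1 : B1, B2, B3, C2'
-/

set_option autoImplicit false

open MvPolynomial

namespace Pool.Agent.W2helper12.SOS

open Pool.Agent.W2helper74.SOS

/-! ### compositions -/

theorem res_X {n j : ℕ} (T : Matrix (Fin n) (Fin j) ℂ) (k : Fin n) : res T (X k) = lf (T k) :=
  aeval_X _ _

theorem res_lf {n j : ℕ} (T : Matrix (Fin n) (Fin j) ℂ) (w : Fin n → ℂ) :
    res T (lf w) = lf (Matrix.vecMul w T) := by
  unfold lf
  rw [map_sum]
  have h1 : ∀ k, res T (C (w k) * X k) = ∑ i, C (w k * T k i) * X i := by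
    intro k
    rw [map_mul, res_X, algHom_C, lf, Finset.mul_sum]
    refine Finset.sum_congr rfl fun i _ => ?_
    rw [← mul_assoc, C_mul]
    rfl
  rw [Finset.sum_congr rfl fun k _ => h1 k, Finset.sum_comm]
  refine Finset.sum_congr rfl fun i _ => ?_
  rw [← Finset.sum_mul, ← map_sum]
  rfl

theorem res_comp {n N j : ℕ} (T : Matrix (Fin n) (Fin N) ℂ) (S : Matrix (Fin N) (Fin j) ℂ) :
    (res S).comp (res T) = res (T * S) := by
  apply algHom_ext
  intro k
  rw [AlgHom.comp_apply, res_X, res_lf, res_X]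
  rfl

theorem res_one (n : ℕ) : res (1 : Matrix (Fin n) (Fin n) ℂ) = AlgHom.id ℂ _ := by
  apply algHom_ext
  intro k
  rw [res_X, AlgHom.id_apply, lf]
  rw [Finset.sum_eq_single k]
  · rw [Matrix.one_apply_eq, C_1, one_mul]
  · intro i _ hi
    rw [Matrix.one_apply_ne hi.symm, C_0, zero_mul]
  · intro h
    exact absurd (Finset.mem_univ k) h

theorem rs_mul {n N j : ℕ} (V : Submodule ℂ (Pol n)) (T : Matrix (Fin n) (Fin N) ℂ)
    (S : Matrix (Fin N) (Fin j) ℂ) : rs V (T * S) = rs (rs V T) S := by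
  unfold rs
  rw [← res_comp, ← Submodule.map_comp]
  rfl

theorem eval_res {n j : ℕ} (T : Matrix (Fin n) (Fin j) ℂ) (y : Fin j → ℂ) (p : Pol n) :
    eval y (res T p) = eval (T.mulVec y) p := by
  have h1 : (aeval y : Pol j →ₐ[ℂ] ℂ).comp (res T) = aeval (T.mulVec y) := by
    apply algHom_ext
    intro k
    rw [AlgHom.comp_apply, res_X, aeval_X, lf, map_sum]
    refine Finset.sum_congr rfl fun i _ => ?_
    rw [map_mul, aeval_X, algHom_C]
    rfl
  have h2 := DFunLike.congr_fun h1 p
  rw [AlgHom.comp_apply, aeval_def, aeval_def, eval₂_eq_eval_map, eval₂_eq_eval_map] at h2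
  simpa using h2

theorem finite_rs {n j : ℕ} (V : Submodule ℂ (Pol n)) (hV : Module.Finite ℂ V)
    (T : Matrix (Fin n) (Fin j) ℂ) : Module.Finite ℂ (rs V T) := by
  unfold rs
  infer_instance

theorem rk_le {n j : ℕ} (V : Submodule ℂ (Pol n)) (hV : Module.Finite ℂ V)
    (T : Matrix (Fin n) (Fin j) ℂ) : rk V T ≤ Module.finrank ℂ V :=
  Submodule.finrank_map_le _ _

theorem rk_mul_le {n N j : ℕ} (V : Submodule ℂ (Pol n)) (hV : Module.Finite ℂ V)
    (T : Matrix (Fin n) (Fin N) ℂ) (S : Matrix (Fin N) (Fin j) ℂ) : rk V (T * S) ≤ rk V T := by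
  unfold rk
  rw [rs_mul]
  have := finite_rs V hV T
  exact Submodule.finrank_map_le _ _

/-- extending a matrix by zero columns -/
def ext0 {n j : ℕ} (N : ℕ) (T : Matrix (Fin n) (Fin j) ℂ) : Matrix (Fin n) (Fin N) ℂ :=
  fun k a => if h : (a : ℕ) < j then T k ⟨a, h⟩ else 0

theorem ext0_emb {n j N : ℕ} (hj : j ≤ N) (T : Matrix (Fin n) (Fin j) ℂ) :
    ext0 N T * emb j N = T := by
  ext k b
  rw [Matrix.mul_apply, Finset.sum_eq_single ⟨b, lt_of_lt_of_le b.2 hj⟩]
  · unfold ext0 emb
    rw [dif_pos b.2, if_pos rfl, mul_one]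
  · intro a _ ha
    unfold emb
    rw [if_neg, mul_zero]
    intro h
    exact ha (Fin.ext h)
  · intro h
    exact absurd (Finset.mem_univ _) h

theorem mx_bdd {n : ℕ} (V : Submodule ℂ (Pol n)) (hV : Module.Finite ℂ V) (j : ℕ) :
    BddAbove (Set.range (fun T : Matrix (Fin n) (Fin j) ℂ => rk V T)) := by
  refine ⟨Module.finrank ℂ V, ?_⟩
  rintro _ ⟨T, rfl⟩
  exact rk_le V hV T

theorem mx_att {n : ℕ} (V : Submodule ℂ (Pol n)) (hV : Module.Finite ℂ V) (j : ℕ) :
    ∃ T : Matrix (Fin n) (Fin j) ℂ, rk V T = mx V j :=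
  Nat.sSup_mem (Set.range_nonempty _) (mx_bdd V hV j)

theorem le_mx {n : ℕ} (V : Submodule ℂ (Pol n)) (hV : Module.Finite ℂ V) (j : ℕ)
    (T : Matrix (Fin n) (Fin j) ℂ) : rk V T ≤ mx V j :=
  le_csSup (mx_bdd V hV j) ⟨T, rfl⟩

theorem pB1 : B1 := by
  intro n V hV
  refine ⟨mx_att V hV, le_mx V hV, fun j => ?_, ?_, fun j => ?_⟩
  · obtain ⟨T, hT⟩ := mx_att V hV j
    rw [← hT]
    exact rk_le V hV T
  · refine le_antisymm ?_ ?_
    · obtain ⟨T, hT⟩ := mx_att V hV n
      rw [← hT]
      exact rk_le V hV T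
    · have h1 := le_mx V hV n 1
      have h2 : rk V (1 : Matrix (Fin n) (Fin n) ℂ) = Module.finrank ℂ V := by
        unfold rk rs
        rw [res_one]
        have : (AlgHom.id ℂ (MvPolynomial (Fin n) ℂ)).toLinearMap = LinearMap.id := rfl
        rw [this, Submodule.map_id]
      rw [← h2]
      exact h1
  · obtain ⟨T, hT⟩ := mx_att V hV j
    rw [← hT, ← ext0_emb (Nat.le_succ j) T]
    exact (rk_mul_le V hV _ _).trans (le_mx V hV _ _)

/-! ### semicontinuity -/

/-- a family of substitutions -/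
noncomputable def resP {n j : ℕ} (T : Matrix (Fin n) (Fin j) (Polynomial ℂ)) :
    Pol n →ₐ[ℂ] MvPolynomial (Fin j) (Polynomial ℂ) :=
  aeval (fun k => ∑ i, C (T k i) * X i)

theorem map_resP_C {n j : ℕ} (T : Matrix (Fin n) (Fin j) (Polynomial ℂ)) (t : ℂ) (a : ℂ) :
    MvPolynomial.map (Polynomial.evalRingHom t) (resP T (C a)) =
      res (T.map (Polynomial.eval t)) (C a) := by
  have h1 : resP T (C a) = C (Polynomial.C a) := aeval_C _ _
  have h2 : res (T.map (Polynomial.eval t)) (C a) = C a := aeval_C _ _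
  rw [h1, h2, map_C]
  congr 1
  exact Polynomial.eval_C

theorem map_resP_X {n j : ℕ} (T : Matrix (Fin n) (Fin j) (Polynomial ℂ)) (t : ℂ) (k : Fin n) :
    MvPolynomial.map (Polynomial.evalRingHom t) (resP T (X k)) =
      lf (T.map (Polynomial.eval t) k) := by
  have h1 : resP T (X k) = ∑ i, C (T k i) * X i := aeval_X _ _
  unfold lf
  rw [h1, map_sum]
  refine Finset.sum_congr rfl fun i _ => ?_
  rw [map_mul, map_C, map_X]
  rfl

theorem map_resP {n j : ℕ} (T : Matrix (Fin n) (Fin j) (Polynomial ℂ)) (t : ℂ) (p : Pol n) :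
    MvPolynomial.map (Polynomial.evalRingHom t) (resP T p) = res (T.map (Polynomial.eval t)) p := by
  induction p using MvPolynomial.induction_on with
  | C a =>
    exact map_resP_C T t a
  | add p q hp hq => rw [map_add, map_add, map_add, hp, hq]
  | mul_X p k hp =>
    rw [map_mul, map_mul, map_mul, hp, res_X, map_resP_X]

theorem coeff_resP {n j : ℕ} (T : Matrix (Fin n) (Fin j) (Polynomial ℂ)) (t : ℂ) (p : Pol n)
    (m : Fin j →₀ ℕ) : coeff m (res (T.map (Polynomial.eval t)) p) =
      Polynomial.eval t (coeff m (resP T p)) := by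
  rw [← map_resP, coeff_map]
  rfl

/-- a linear functional applied to a family is a polynomial in the parameter -/
theorem exists_poly {n j : ℕ} (T : Matrix (Fin n) (Fin j) (Polynomial ℂ)) (p : Pol n)
    (φ : Pol j →ₗ[ℂ] ℂ) : ∃ q : Polynomial ℂ, ∀ t,
      Polynomial.eval t q = φ (res (T.map (Polynomial.eval t)) p) := by
  refine ⟨∑ m ∈ (resP T p).support, coeff m (resP T p) * Polynomial.C (φ (monomial m 1)),
    fun t => ?_⟩
  have h1 : res (T.map (Polynomial.eval t)) p =
      ∑ m ∈ (resP T p).support, Polynomial.eval t (coeff m (resP T p)) • monomial m (1 : ℂ) := by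
    conv_lhs => rw [← map_resP, (resP T p).as_sum]
    rw [map_sum]
    refine Finset.sum_congr rfl fun m _ => ?_
    rw [map_monomial, smul_monomial, smul_eq_mul, mul_one]
    rfl
  rw [h1, map_sum, Polynomial.eval_finsetSum]
  refine Finset.sum_congr rfl fun m _ => ?_
  rw [map_smul, smul_eq_mul, Polynomial.eval_mul, Polynomial.eval_C]

/-- independent vectors in a restriction bound the rank from below -/
theorem le_rk {n j s : ℕ} (V : Submodule ℂ (Pol n)) (hV : Module.Finite ℂ V)
    (T : Matrix (Fin n) (Fin j) ℂ) (v : Fin s → Pol n) (hv : ∀ i, v i ∈ V)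
    (h : LinearIndependent ℂ (fun i => res T (v i))) : s ≤ rk V T := by
  have := finite_rs V hV T
  have h1 : LinearIndependent ℂ (fun i => (⟨res T (v i), Submodule.mem_map_of_mem (hv i)⟩ :
      rs V T)) := by
    apply LinearIndependent.of_comp (rs V T).subtype
    exact h
  have h2 := h1.fintype_card_le_finrank
  rwa [Fintype.card_fin] at h2

/-- vectors whose restrictions are a basis -/
theorem exists_rk {n j : ℕ} (V : Submodule ℂ (Pol n)) (hV : Module.Finite ℂ V)
    (T : Matrix (Fin n) (Fin j) ℂ) (s : ℕ) (hs : rk V T = s) :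
    ∃ v : Fin s → Pol n, (∀ i, v i ∈ V) ∧ LinearIndependent ℂ (fun i => res T (v i)) := by
  have := finite_rs V hV T
  have hb : Module.Basis (Fin s) ℂ (rs V T) := Module.finBasisOfFinrankEq ℂ (rs V T) hs
  have h1 : ∀ i, ∃ u ∈ V, res T u = (hb i : Pol j) := fun i => (hb i).2
  choose v hv hv' using h1
  refine ⟨v, hv, ?_⟩
  have h2 : (fun i => res T (v i)) = (rs V T).subtype ∘ hb := funext hv'
  rw [h2]
  exact hb.linearIndependent.map' _ (Submodule.ker_subtype _)

theorem pB2 : B2 := by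
  intro n j V hV T t₁
  obtain ⟨s, hs⟩ : ∃ s, s = rk V (T.map (Polynomial.eval t₁)) := ⟨_, rfl⟩
  obtain ⟨v, hv, hli⟩ := exists_rk V hV (T.map (Polynomial.eval t₁)) s hs.symm
  rw [← hs]
  have hinj := hli
  rw [LinearIndependent] at hinj
  obtain ⟨Φ, hΦ⟩ := LinearMap.exists_leftInverse_of_injective _ (LinearMap.ker_eq_bot.2 hinj)
  -- the coordinates
  have hq : ∀ a i : Fin s, ∃ q : Polynomial ℂ, ∀ t, Polynomial.eval t q =
      Φ (res (T.map (Polynomial.eval t)) (v i)) a := fun a i =>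
    exists_poly T (v i) ((Finsupp.lapply a).comp Φ)
  choose q hq using hq
  obtain ⟨Q, hQ⟩ : ∃ Q : Matrix (Fin s) (Fin s) (Polynomial ℂ), ∀ a i, Q a i = q a i :=
    ⟨Matrix.of q, fun _ _ => rfl⟩
  have hdet : ∀ t, Polynomial.eval t Q.det =
      (Matrix.of (fun a i => Polynomial.eval t (q a i))).det := by
    intro t
    rw [← Polynomial.coe_evalRingHom, RingHom.map_det]
    congr 1
    ext a i
    show Polynomial.eval t (Q a i) = Polynomial.eval t (q a i)
    rw [hQ]
  have h1 : Polynomial.eval t₁ Q.det = 1 := by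
    rw [hdet]
    have h2 : Matrix.of (fun a i => Polynomial.eval t₁ (q a i)) =
        (1 : Matrix (Fin s) (Fin s) ℂ) := by
      ext a i
      rw [Matrix.of_apply, hq]
      have h3 := DFunLike.congr_fun hΦ (Finsupp.single i 1)
      rw [LinearMap.comp_apply, Finsupp.linearCombination_single, one_smul, LinearMap.id_apply] at h3
      rw [h3, Finsupp.single_apply, Matrix.one_apply]
      simp only [eq_comm]
    rw [h2, Matrix.det_one]
  have h0 : Q.det ≠ 0 := by
    intro h
    rw [h, Polynomial.eval_zero] at h1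
    exact zero_ne_one h1
  refine (Polynomial.rootSet_finite Q.det ℂ).subset fun t ht => ?_
  rw [Polynomial.mem_rootSet_of_ne h0, Polynomial.coe_aeval_eq_eval]
  by_contra hne
  have hlt : rk V (T.map (Polynomial.eval t)) < s := ht
  refine absurd (le_rk V hV _ v hv ?_) (not_le.2 hlt)
  -- independence
  have h5 : LinearIndependent ℂ (Matrix.of (fun a i => Polynomial.eval t (q a i))).col := by
    rw [Matrix.linearIndependent_cols_iff_isUnit, Matrix.isUnit_iff_isUnit_det, ← hdet,
      isUnit_iff_ne_zero]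
    exact hne
  have h6 : (Matrix.of (fun a i => Polynomial.eval t (q a i))).col =
      ((Finsupp.linearEquivFunOnFinite ℂ ℂ (Fin s)).toLinearMap.comp Φ) ∘
        (fun i => res (T.map (Polynomial.eval t)) (v i)) := by
    funext i a
    show Polynomial.eval t (q a i) = _
    rw [hq]
    rfl
  rw [h6] at h5
  exact h5.of_comp _

/-! ### common maximisers -/

theorem exists_max {α : Type} [Nonempty α] (f : α → ℕ) (b : ℕ) (hb : ∀ x, f x ≤ b) :
    ∃ x, ∀ y, f y ≤ f x := by
  have h1 : BddAbove (Set.range f) := ⟨b, by rintro _ ⟨x, rfl⟩; exact hb x⟩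
  obtain ⟨x, hx⟩ := Nat.sSup_mem (Set.range_nonempty f) h1
  exact ⟨x, fun y => hx ▸ le_csSup h1 ⟨y, rfl⟩⟩

theorem pB3 : B3 := by
  intro n N s V d hV hd
  obtain ⟨T, hT⟩ := exists_max (fun T : Matrix (Fin n) (Fin N) ℂ =>
    ∑ i, rk (V i) (T * emb (d i) N)) (∑ i, Module.finrank ℂ (V i))
    (fun T => Finset.sum_le_sum fun i _ => rk_le (V i) (hV i) _)
  refine ⟨T, ?_⟩
  by_contra hcon
  push Not at hcon
  obtain ⟨i, hi⟩ := hcon
  have hlt := lt_of_le_of_ne (le_mx (V i) (hV i) _ _) hi
  obtain ⟨T₀, hT₀⟩ := mx_att (V i) (hV i) (d i)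
  obtain ⟨T', hT'⟩ : ∃ T' : Matrix (Fin n) (Fin N) ℂ, T' * emb (d i) N = T₀ :=
    ⟨ext0 N T₀, ext0_emb (hd i) T₀⟩
  -- the family
  let F : ∀ k, Matrix (Fin n) (Fin (d k)) (Polynomial ℂ) := fun k =>
    (T * emb (d k) N).map Polynomial.C +
      (Polynomial.X : Polynomial ℂ) • ((T' - T) * emb (d k) N).map Polynomial.C
  have hF : ∀ k t, (F k).map (Polynomial.eval t) = (T + t • (T' - T)) * emb (d k) N := by
    intro k t
    rw [Matrix.add_mul, Matrix.smul_mul]
    ext a b
    show Polynomial.eval t (Polynomial.C _ + Polynomial.X * Polynomial.C _) = _ + t * _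
    rw [Polynomial.eval_add, Polynomial.eval_mul, Polynomial.eval_X, Polynomial.eval_C,
      Polynomial.eval_C]
  have h1 : ∀ k, {t : ℂ | rk (V k) ((T + t • (T' - T)) * emb (d k) N) <
      rk (V k) (T * emb (d k) N)}.Finite := by
    intro k
    have h2 := pB2 n (d k) (V k) (hV k) (F k) 0
    simp only [hF, zero_smul, add_zero] at h2
    exact h2
  have h3 : {t : ℂ | rk (V i) ((T + t • (T' - T)) * emb (d i) N) <
      rk (V i) (T' * emb (d i) N)}.Finite := by
    have h2 := pB2 n (d i) (V i) (hV i) (F i) 1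
    simp only [hF, one_smul, add_sub_cancel] at h2
    exact h2
  have h4 : ((⋃ k, {t : ℂ | rk (V k) ((T + t • (T' - T)) * emb (d k) N) <
      rk (V k) (T * emb (d k) N)}) ∪ {t : ℂ | rk (V i) ((T + t • (T' - T)) * emb (d i) N) <
      rk (V i) (T' * emb (d i) N)}).Finite := (Set.finite_iUnion h1).union h3
  obtain ⟨t, ht⟩ := h4.exists_notMem
  rw [Set.mem_union, not_or] at ht
  have h5 : ∀ k, rk (V k) (T * emb (d k) N) ≤ rk (V k) ((T + t • (T' - T)) * emb (d k) N) := by
    intro k
    by_contra hk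
    exact ht.1 (Set.mem_iUnion.2 ⟨k, not_le.1 hk⟩)
  have h6 : rk (V i) (T' * emb (d i) N) ≤ rk (V i) ((T + t • (T' - T)) * emb (d i) N) := by
    by_contra hk
    exact ht.2 (not_le.1 hk)
  have h7 := hT (T + t • (T' - T))
  have h8 : ∑ k, rk (V k) (T * emb (d k) N) < ∑ k, rk (V k) ((T + t • (T' - T)) * emb (d k) N) := by
    refine Finset.sum_lt_sum (fun k _ => h5 k) ⟨i, Finset.mem_univ i, ?_⟩
    rw [hT', hT₀] at h6
    exact lt_of_lt_of_le hlt h6
  exact absurd h7 (not_le.2 h8)

/-! ### points -/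

/-- independent functions are independent on suitable points -/
theorem pts {X : Type} {s : ℕ} (f : Fin s → X → ℂ) (hf : LinearIndependent ℂ f) :
    ∃ x : Fin s → X, LinearIndependent ℂ (fun i a => f i (x a)) := by
  obtain ⟨r, hr⟩ : ∃ r : X → (Fin s → ℂ), r = fun x i => f i x := ⟨_, rfl⟩
  have hspan : Submodule.span ℂ (Set.range r) = ⊤ := by
    by_contra hne
    obtain ⟨φ, hφ, hφ'⟩ := Submodule.exists_le_ker_of_lt_top _ (lt_top_iff_ne_top.2 hne)
    apply hφ
    have h1 : ∀ x, ∑ i, φ (Pi.single i 1) * f i x = 0 := by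
      intro x
      have h2 : φ (r x) = 0 := hφ' (Submodule.subset_span ⟨x, rfl⟩)
      have h3 : r x = ∑ i, f i x • (Pi.single i (1 : ℂ) : Fin s → ℂ) := by
        funext k
        rw [Finset.sum_apply, hr]
        simp [Pi.single_apply]
      rw [h3, map_sum] at h2
      rw [← h2]
      refine Finset.sum_congr rfl fun i _ => ?_
      rw [map_smul, smul_eq_mul, mul_comm]
    have h4 : ∑ i, φ (Pi.single i 1) • f i = 0 := by
      funext x
      rw [Finset.sum_apply]
      exact h1 x
    have h5 := Fintype.linearIndependent_iff.1 hf _ h4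
    apply LinearMap.pi_ext'
    intro i
    ext
    simpa using h5 i
  obtain ⟨b, hb, hb1, hb2⟩ := exists_linearIndependent ℂ (Set.range r)
  rw [hspan] at hb1
  let B : Module.Basis b ℂ (Fin s → ℂ) := Module.Basis.mk hb2 (by
    rw [Subtype.range_coe, hb1])
  have hcard : Module.finrank ℂ (Fin s → ℂ) = s := by simp
  have hfin : Finite b := Module.Finite.finite_basis B
  have hbc : Nat.card b = s := (Module.finrank_eq_nat_card_basis B).symm.trans hcard
  have hx : ∀ y : b, ∃ x, r x = y.1 := fun y => hb y.2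
  choose g hg using hx
  let e : Fin s ≃ b := (finCongr hbc.symm).trans (Finite.equivFin b).symm
  refine ⟨fun a => g (e a), ?_⟩
  have h1 : LinearIndependent ℂ (Matrix.of (fun a i : Fin s => f i (g (e a)))).row := by
    have h2 : (Matrix.of (fun a i : Fin s => f i (g (e a)))).row = (Subtype.val : b → _) ∘ e := by
      funext a
      have h3 := hg (e a)
      rw [hr] at h3
      exact h3
    rw [h2]
    exact hb2.comp _ e.injective
  rw [Matrix.linearIndependent_rows_iff_isUnit, ← Matrix.linearIndependent_cols_iff_isUnit] at h1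
  exact h1

theorem pC2' : C2' := by
  intro n E hE j
  obtain ⟨s, hs⟩ : ∃ s, s = min (Module.finrank ℂ E) j := ⟨_, rfl⟩
  rw [← hs]
  have hs1 : s ≤ Module.finrank ℂ E := by omega
  have hs2 : s ≤ j := by omega
  have hb := Module.finBasis ℂ E
  let v : Fin s → Pol n := fun i => (hb (Fin.castLE hs1 i) : Pol n)
  have hv : LinearIndependent ℂ v := by
    have h1 : LinearIndependent ℂ (E.subtype ∘ hb) :=
      hb.linearIndependent.map' _ (Submodule.ker_subtype _)
    exact h1.comp (Fin.castLE hs1) (Fin.castLE_injective hs1)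
  let L : Pol n →ₗ[ℂ] ((Fin n → ℂ) → ℂ) :=
    { toFun := fun p x => eval x p
      map_add' := fun p q => by funext x; exact map_add _ _ _
      map_smul' := fun c p => by funext x; exact smul_eval _ _ _ }
  have hL : LinearMap.ker L = ⊥ := by
    rw [LinearMap.ker_eq_bot]
    intro p q hpq
    apply MvPolynomial.funext
    intro x
    exact congrFun hpq x
  obtain ⟨x, hx⟩ := pts (L ∘ v) (hv.map' L hL)
  let T : Matrix (Fin n) (Fin j) ℂ := fun k a => if h : (a : ℕ) < s then x ⟨a, h⟩ k else 0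
  refine (le_rk E hE T v (fun i => (hb _).2) ?_).trans (le_mx E hE j T)
  let R : Pol j →ₗ[ℂ] (Fin s → ℂ) :=
    { toFun := fun p a => eval (Pi.single (Fin.castLE hs2 a) 1) p
      map_add' := fun p q => by funext x; exact map_add _ _ _
      map_smul' := fun c p => by funext x; exact smul_eval _ _ _ }
  apply LinearIndependent.of_comp R
  have h1 : R ∘ (fun i => res T (v i)) = fun i a => (L ∘ v) i (x a) := by
    funext i a
    show eval (Pi.single (Fin.castLE hs2 a) 1) (res T (v i)) = eval (x a) (v i)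
    rw [eval_res]
    congr 2
    funext k
    rw [Matrix.mulVec_single_one]
    show (if h : ((Fin.castLE hs2 a : Fin j) : ℕ) < s then x ⟨_, h⟩ k else 0) = x a k
    rw [dif_pos (show ((Fin.castLE hs2 a : Fin j) : ℕ) < s from a.2)]
    rfl
  rw [h1]
  exact hx

end Pool.Agent.W2helper12.SOS
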