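import Pool.Agent.W2helper12.SOS.K4c
import Pool.Agent.W2helper4.SOS.J5
import Pool.Agent.W2helper19.SOS.J3
import Pool.Agent.W2helper66.SOS.J2

/-!
# MP_ce7760_an : pieces K0 (`mxThree`) and K4 (`pDegB`)
-/

set_option autoImplicit false

open MvPolynomial

namespace Pool.Agent.W2helper12.SOS.K4

open Pool.Agent.W2helper74.SOS

/-- restrictions to lines -/
theorem rk_one_le {r D : ℕ} (d : Dat 3 4 r D) (T : Matrix (Fin 3) (Fin 1) ℂ) : rk d.V T ≤ 1 := by
  have h1 : rs d.V T ≤ Submodule.span ℂ {(X 0 ^ (D + 1) : Pol 1)} := by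
    unfold rs Dat.V
    rw [Submodule.map_span, Submodule.span_le]
    rintro _ ⟨_, ⟨j, rfl⟩, rfl⟩
    rw [SetLike.mem_coe, Submodule.mem_span_singleton]
    refine ⟨eval (fun k => T k 0) (d.p j), ?_⟩
    apply MvPolynomial.funext
    intro y
    show eval y _ = eval y (res T (d.p j))
    rw [eval_res, smul_eval, map_pow, eval_X]
    have h2 : T.mulVec y = fun k => y 0 * T k 0 := by
      funext k
      simp [Matrix.mulVec, dotProduct, mul_comm]
    rw [h2, Pool.Agent.W2helper15.SOS.hom_eval (d.p_hom j), mul_comm]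
  unfold rk
  refine (Submodule.finrank_mono h1).trans ?_
  refine (finrank_span_le_card _).trans ?_
  simp

/-- (K0) -/
theorem mxThree : MxThree := by
  intro r D d
  have hV := V_fin d
  obtain ⟨b1, b2, b3, b4, b5⟩ := pB1 3 d.V hV
  have hrank : Module.finrank ℂ d.V = 4 := by
    unfold Dat.V
    rw [finrank_span_eq_card d.p_ind, Fintype.card_fin]
  have h1 : mx d.V 1 ≤ 1 := by
    obtain ⟨T, hT⟩ := b1 1
    rw [← hT]
    exact rk_one_le d T
  have h2 := pC2' 3 d.V hV 1
  have h3 := Pool.Agent.W2helper4.SOS.a4 pB1 pB2 pB3 3 4 r D d 1 le_rfl (by norm_num)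
  have h4 := Pool.Agent.W2helper19.SOS.c1 pB1 pB3 Pool.Agent.W2helper66.SOS.b4
    Pool.Agent.W2helper66.SOS.b5 3 d.V hV 2 (by norm_num) (by norm_num)
  rw [hrank] at h2
  norm_num at h2 h3 h4
  rw [b4, hrank] at h4
  omega

/-- (K4) -/
theorem pDegB : DegB :=
  degB mxThree Pool.Agent.W2helper9.SOS.wron Pool.Agent.W2helper9.SOS.hess
    Pool.Agent.W2helper15.SOS.bez

end Pool.Agent.W2helper12.SOS.K4
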