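import Pool.Agent.W2helper74.SOS.Stm2
import Pool.Agent.W2helper17.SOS.DatAlg
import Pool.Agent.W2helper9.SOS.K1
import Pool.Agent.W2helper15.SOS.Bez

/-!
# MP_ce7760_an : piece K4, part a (the divisibility argument)
-/

set_option autoImplicit false

open MvPolynomial

namespace Pool.Agent.W2helper12.SOS.K4

open Pool.Agent.W2helper74.SOS

/-- the quadratic form of a matrix -/
def Q (κ : Fin 3 → Fin 3 → ℂ) (x : Fin 3 → ℂ) : ℂ := ∑ i, ∑ k, x i * x k * κ i k

/-- the cross product -/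
def cr (z q : Fin 3 → ℂ) : Fin 3 → ℂ :=
  ![z 1 * q 2 - z 2 * q 1, z 2 * q 0 - z 0 * q 2, z 0 * q 1 - z 1 * q 0]

/-- the bilinear product -/
def dt (z w : Fin 3 → ℂ) : ℂ := ∑ k, z k * w k

theorem dt_eq (z w : Fin 3 → ℂ) : dt z w = z 0 * w 0 + z 1 * w 1 + z 2 * w 2 := by
  rw [dt, Fin.sum_univ_three]

theorem Q_eq (κ : Fin 3 → Fin 3 → ℂ) (x : Fin 3 → ℂ) : Q κ x =
    x 0 * x 0 * κ 0 0 + x 0 * x 1 * κ 0 1 + x 0 * x 2 * κ 0 2 +
    (x 1 * x 0 * κ 1 0 + x 1 * x 1 * κ 1 1 + x 1 * x 2 * κ 1 2) +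
    (x 2 * x 0 * κ 2 0 + x 2 * x 1 * κ 2 1 + x 2 * x 2 * κ 2 2) := by
  simp only [Q, Fin.sum_univ_three]

theorem cr_0 (z q : Fin 3 → ℂ) : cr z q 0 = z 1 * q 2 - z 2 * q 1 := rfl
theorem cr_1 (z q : Fin 3 → ℂ) : cr z q 1 = z 2 * q 0 - z 0 * q 2 := rfl
theorem cr_2 (z q : Fin 3 → ℂ) : cr z q 2 = z 0 * q 1 - z 1 * q 0 := rfl

theorem dt_cr_self (z q : Fin 3 → ℂ) : dt (cr z q) z = 0 := by
  rw [dt_eq, cr_0, cr_1, cr_2]
  ring

theorem eval_zero_of_hom {n N : ℕ} {p : Pol n} (hp : p.IsHomogeneous N) (hN : N ≠ 0) :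
    eval 0 p = 0 := by
  have h := Pool.Agent.W2helper15.SOS.hom_eval hp 0 0
  rw [zero_pow hN, zero_mul] at h
  have e : (fun i => (0 : ℂ) * (0 : Fin n → ℂ) i) = 0 := by
    funext i
    exact zero_mul _
  rwa [e] at h

/-- a plane is not a line -/
theorem exists_indep (w v : Fin 3 → ℂ) (hw : w ≠ 0) :
    ∃ v' : Fin 3 → ℂ, dt v' w = 0 ∧ ∀ t : ℂ, v' ≠ t • v := by
  by_contra hcon
  push Not at hcon
  obtain ⟨a, ha⟩ := hcon ![-w 1, w 0, 0] (by rw [dt_eq]; simp; ring)
  obtain ⟨b, hb⟩ := hcon ![-w 2, 0, w 0] (by rw [dt_eq]; simp; ring)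
  obtain ⟨c, hc⟩ := hcon ![0, -w 2, w 1] (by rw [dt_eq]; simp; ring)
  have a0 : -w 1 = a * v 0 := congrFun ha 0
  have a1 : w 0 = a * v 1 := congrFun ha 1
  have a2 : 0 = a * v 2 := congrFun ha 2
  have b0 : -w 2 = b * v 0 := congrFun hb 0
  have b1 : 0 = b * v 1 := congrFun hb 1
  have b2 : w 0 = b * v 2 := congrFun hb 2
  have c0 : 0 = c * v 0 := congrFun hc 0
  have c1 : -w 2 = c * v 1 := congrFun hc 1
  have c2 : w 1 = c * v 2 := congrFun hc 2
  apply hw
  have h0 : w 0 * w 0 = 0 := by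
    calc w 0 * w 0 = (a * v 1) * (b * v 2) := by rw [← a1, ← b2]
      _ = (a * v 2) * (b * v 1) := by ring
      _ = 0 := by rw [← a2, zero_mul]
  have h1 : w 1 * w 1 = 0 := by
    calc w 1 * w 1 = -((a * v 0) * (c * v 2)) := by rw [← a0, ← c2]; ring
      _ = -((a * v 2) * (c * v 0)) := by ring
      _ = 0 := by rw [← a2, zero_mul, neg_zero]
  have h2 : w 2 * w 2 = 0 := by
    calc w 2 * w 2 = (b * v 0) * (c * v 1) := by rw [← b0, ← c1]; ring
      _ = (b * v 1) * (c * v 0) := by ring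
      _ = 0 := by rw [← b1, zero_mul]
  funext i
  fin_cases i
  · exact mul_self_eq_zero.1 h0
  · exact mul_self_eq_zero.1 h1
  · exact mul_self_eq_zero.1 h2

/-- the polynomial in `t` of a linear polynomial -/
noncomputable def ln (a b : ℂ) : Polynomial ℂ := Polynomial.C a * Polynomial.X + Polynomial.C b

theorem ln_deg (a b : ℂ) : (ln a b).natDegree ≤ 1 := Polynomial.natDegree_linear_le

theorem ln_eval (a b t : ℂ) : (ln a b).eval t = a * t + b := by
  simp [ln]

/-- **the divisibility argument on a line** -/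
theorem line {D : ℕ} (hD : 3 ≤ D) (w q v v' : Fin 3 → ℂ) (A G : Pol 3) (hA : A.IsHomogeneous D)
    {N : ℕ} (hG : G.IsHomogeneous N)
    (hv : dt v w = 0) (hv' : dt v' w = 0) (hAv : eval v A ≠ 0) (hind : ∀ t : ℂ, t • v + v' ≠ 0)
    (hcop : ∀ z, z ≠ 0 → dt z w = 0 → eval z A = 0 → eval z G = 0 → False)
    (κ : Fin 3 → Fin 3 → ℂ) (s : Fin 3 → Fin 3 → Fin 3 → ℂ)
    (h : ∀ z η, dt z w = 0 → dt η z = 0 →
      (∑ i, ∑ k, η i * η k * ∑ m, s i k m * z m) * eval z A + Q κ η * eval z G = 0) (t : ℂ) :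
    Q κ (cr (t • v + v') q) = 0 := by
  obtain ⟨a, ha1, ha2, ha3⟩ := Pool.Agent.W2helper17.SOS.hom_poly A hA v v'
  obtain ⟨g, hg1, hg2, hg3⟩ := Pool.Agent.W2helper17.SOS.hom_poly G hG v v'
  set η : Fin 3 → Polynomial ℂ := fun i => ln (cr v q i) (cr v' q i) with hη
  set K : Polynomial ℂ := ∑ i, ∑ k, η i * η k * Polynomial.C (κ i k) with hK
  set L : Polynomial ℂ := ∑ i, ∑ k, η i * η k *
    ∑ m, Polynomial.C (s i k m) * ln (v m) (v' m) with hL
  have hηe : ∀ t i, (η i).eval t = cr (t • v + v') q i := by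
    intro t i
    rw [hη]
    simp only [ln_eval]
    fin_cases i <;> simp [cr] <;> ring
  have hKe : ∀ t, K.eval t = Q κ (cr (t • v + v') q) := by
    intro t
    rw [hK, Q]
    simp only [Polynomial.eval_finsetSum, Polynomial.eval_mul, Polynomial.eval_C, hηe]
  have hLe : ∀ t, L.eval t = ∑ i, ∑ k, cr (t • v + v') q i * cr (t • v + v') q k *
      ∑ m, s i k m * (t • v + v') m := by
    intro t
    rw [hL]
    simp only [Polynomial.eval_finsetSum, Polynomial.eval_mul, Polynomial.eval_C, hηe, ln_eval]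
    refine Finset.sum_congr rfl fun i _ => Finset.sum_congr rfl fun k _ => ?_
    congr 1
    refine Finset.sum_congr rfl fun m _ => ?_
    simp only [Pi.add_apply, Pi.smul_apply, smul_eq_mul]
    ring
  have hdt : ∀ t : ℂ, dt (t • v + v') w = 0 := by
    intro t
    have : dt (t • v + v') w = t * dt v w + dt v' w := by
      rw [dt_eq, dt_eq, dt_eq]
      simp only [Pi.add_apply, Pi.smul_apply, smul_eq_mul]
      ring
    rw [this, hv, hv', mul_zero, add_zero]
  have hid : L * a + K * g = 0 := by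
    apply Polynomial.funext
    intro t
    rw [Polynomial.eval_add, Polynomial.eval_mul, Polynomial.eval_mul, Polynomial.eval_zero, hKe,
      hLe, ha3, hg3]
    exact h _ _ (hdt t) (dt_cr_self _ _)
  have hco : IsCoprime a g := by
    rw [Polynomial.isCoprime_iff_aeval_ne_zero_of_isAlgClosed ℂ ℂ]
    intro t
    rw [Polynomial.coe_aeval_eq_eval, ha3, hg3]
    by_contra hcon
    push Not at hcon
    exact hcop _ (hind t) (hdt t) hcon.1 hcon.2
  have hdvd : a ∣ K := by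
    apply hco.dvd_of_dvd_mul_right
    refine ⟨-L, ?_⟩
    linear_combination hid
  have hadeg : D ≤ a.natDegree := Polynomial.le_natDegree_of_ne_zero (by rw [ha2]; exact hAv)
  have hKdeg : K.natDegree ≤ 2 := by
    rw [hK]
    refine Polynomial.natDegree_sum_le_of_forall_le _ _ fun i _ =>
      Polynomial.natDegree_sum_le_of_forall_le _ _ fun k _ => ?_
    refine (Polynomial.natDegree_mul_C_le _ _).trans ?_
    exact Polynomial.natDegree_mul_le_of_le (ln_deg _ _) (ln_deg _ _)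
  have hK0 : K = 0 := Polynomial.eq_zero_of_dvd_of_natDegree_lt hdvd (by omega)
  rw [← hKe, hK0, Polynomial.eval_zero]

/-- **the divisibility argument** -/
theorem core {D : ℕ} (hD : 3 ≤ D) (w q : Fin 3 → ℂ) (hq : dt q w ≠ 0) (A G : Pol 3)
    (hA : A.IsHomogeneous D) {N : ℕ} (hG : G.IsHomogeneous N)
    (hAv : ∃ v, dt v w = 0 ∧ eval v A ≠ 0)
    (hcop : ∀ z, z ≠ 0 → dt z w = 0 → eval z A = 0 → eval z G = 0 → False)
    (κ : Fin 3 → Fin 3 → ℂ) (s : Fin 3 → Fin 3 → Fin 3 → ℂ) (hκ : ∀ i k, κ i k = κ k i)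
    (h : ∀ z η, dt z w = 0 → dt η z = 0 →
      (∑ i, ∑ k, η i * η k * ∑ m, s i k m * z m) * eval z A + Q κ η * eval z G = 0)
    (hw : ∀ k, ∑ i, w i * κ i k = 0) (i k : Fin 3) : κ i k = 0 := by
  have hw0 : w ≠ 0 := by
    rintro rfl
    apply hq
    rw [dt_eq]
    simp
  obtain ⟨v, hv, hAv⟩ := hAv
  have hv0 : v ≠ 0 := by
    rintro rfl
    apply hAv
    exact eval_zero_of_hom hA (by omega)
  -- step 1
  have h1 : ∀ v', dt v' w = 0 → (∀ t : ℂ, v' ≠ t • v) → ∀ t : ℂ, Q κ (cr (t • v + v') q) = 0 := by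
    intro v' hv' hne t
    refine line hD w q v v' A G hA hG hv hv' hAv (fun t h0 => ?_) hcop κ s h t
    apply hne (-t)
    rw [neg_smul]
    exact eq_neg_of_add_eq_zero_right h0
  -- step 2
  have h2 : ∀ z, dt z w = 0 → Q κ (cr z q) = 0 := by
    intro z hz
    by_cases hzv : ∀ t : ℂ, z ≠ t • v
    · have := h1 z hz hzv 0
      rwa [zero_smul, zero_add] at this
    · push Not at hzv
      obtain ⟨t, rfl⟩ := hzv
      obtain ⟨v', hv', hne⟩ := exists_indep w v hw0
      have e1 := h1 v' hv' hne 0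
      have e2 := h1 v' hv' hne 1
      have e3 := h1 v' hv' hne (-1)
      have e4 : 2 * Q κ (cr v q) = 0 := by
        rw [Q_eq] at e1 e2 e3 ⊢
        simp only [cr_0, cr_1, cr_2, Pi.add_apply, Pi.smul_apply, smul_eq_mul] at e1 e2 e3 ⊢
        linear_combination e2 + e3 - 2 * e1
      have e5 : Q κ (cr (t • v) q) = t ^ 2 * Q κ (cr v q) := by
        rw [Q_eq, Q_eq]
        simp only [cr_0, cr_1, cr_2, Pi.smul_apply, smul_eq_mul]
        ring
      rw [e5]
      have e6 : Q κ (cr v q) = 0 := by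
        have := mul_eq_zero.1 e4
        rcases this with h | h
        · norm_num at h
        · exact h
      rw [e6, mul_zero]
  -- step 3
  have h3 : ∀ x : Fin 3 → ℂ, Q κ x = 0 := by
    intro x
    set σ : ℂ := dt x q / dt q w with hσ
    have hσ' : σ * dt q w = dt x q := div_mul_cancel₀ _ hq
    set η : Fin 3 → ℂ := x - σ • w with hη
    have hηq : dt η q = 0 := by
      have : dt η q = dt x q - σ * dt q w := by
        rw [hη, dt_eq, dt_eq, dt_eq]
        simp only [Pi.sub_apply, Pi.smul_apply, smul_eq_mul]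
        ring
      rw [this, hσ', sub_self]
    set z : Fin 3 → ℂ := (-(dt q w)⁻¹) • cr η w with hz
    have hzw : dt z w = 0 := by
      rw [hz, dt_eq]
      simp only [Pi.smul_apply, smul_eq_mul, cr_0, cr_1, cr_2]
      ring
    have hzq : cr z q = η := by
      have e0 : dt q w * (dt q w)⁻¹ = 1 := mul_inv_cancel₀ hq
      rw [dt_eq] at hηq
      have e1 : ∀ i, cr z q i = (dt q w)⁻¹ * (dt q w * η i - (η 0 * q 0 + η 1 * q 1 + η 2 * q 2) * w i) := by
        intro i
        rw [hz]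
        generalize (dt q w)⁻¹ = u
        rw [dt_eq]
        fin_cases i
        · show cr _ q 0 = _
          simp only [cr_0, cr_1, cr_2, Pi.smul_apply, smul_eq_mul, Fin.zero_eta]
          ring
        · show cr _ q 1 = _
          simp only [cr_0, cr_1, cr_2, Pi.smul_apply, smul_eq_mul, Fin.mk_one]
          ring
        · show cr _ q 2 = _
          simp only [cr_0, cr_1, cr_2, Pi.smul_apply, smul_eq_mul, Fin.reduceFinMk]
          ring
      funext i
      rw [e1, hηq, zero_mul, sub_zero, ← mul_assoc, mul_comm _ (dt q w), e0, one_mul]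
    have h4 : Q κ η = 0 := by
      rw [← hzq]
      exact h2 z hzw
    have hw0' := hw 0
    have hw1' := hw 1
    have hw2' := hw 2
    rw [Fin.sum_univ_three] at hw0' hw1' hw2'
    have h5 : x = η + σ • w := by rw [hη]; exact (sub_add_cancel _ _).symm
    have k1 := hκ 1 0
    have k2 := hκ 2 0
    have k3 := hκ 2 1
    rw [h5]
    rw [Q_eq] at h4 ⊢
    simp only [Pi.add_apply, Pi.smul_apply, smul_eq_mul]
    rw [k1, k2, k3] at h4 ⊢
    rw [k1, k2] at hw0'
    rw [k3] at hw1'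
    linear_combination h4 + (2 * σ * η 0 + σ ^ 2 * w 0) * hw0' +
      (2 * σ * η 1 + σ ^ 2 * w 1) * hw1' + (2 * σ * η 2 + σ ^ 2 * w 2) * hw2'
  -- step 4
  have e1 := h3 (Pi.single i 1)
  have e2 := h3 (Pi.single k 1)
  have e3 := h3 (Pi.single i 1 + Pi.single k 1)
  have e4 := hκ i k
  rw [Q_eq] at e1 e2 e3
  revert e1 e2 e3 e4
  fin_cases i <;> fin_cases k <;> simp <;> intro e1 e2 e3 e4 <;>
    first
    | exact e1
    | (rw [← e4, e1, e2] at e3
       simpa using e3)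

end Pool.Agent.W2helper12.SOS.K4
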