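import Pool.Agent.W2helper12.SOS.K4a
import Pool.Agent.W2helper12.SOS.J1

/-!
# MP_ce7760_an : piece K4, part b (choice of the plane)
-/

set_option autoImplicit false

open MvPolynomial

namespace Pool.Agent.W2helper12.SOS.K4

open Pool.Agent.W2helper74.SOS

/-- the matrix of the cross product with `w`, its image is the plane orthogonal to `w` -/
def Mw {R : Type*} [Ring R] (w : Fin 3 → R) : Matrix (Fin 3) (Fin 3) R :=
  ![![0, w 2, -w 1], ![-w 2, 0, w 0], ![w 1, -w 0, 0]]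

theorem Mw_mulVec (w y : Fin 3 → ℂ) : (Mw w).mulVec y = cr y w := by
  funext i
  fin_cases i <;> simp [Mw, cr, Matrix.mulVec, dotProduct, Fin.sum_univ_three] <;> ring

theorem Mw_eval (w : Fin 3 → Polynomial ℂ) (t : ℂ) :
    (Mw w).map (Polynomial.eval t) = Mw fun i => (w i).eval t := by
  ext i j
  rw [Matrix.map_apply]
  fin_cases i <;> fin_cases j <;> simp [Mw]

/-- every matrix with image in the plane factors -/
theorem factor {w : Fin 3 → ℂ} (hw : w ≠ 0) {j : ℕ} (T : Matrix (Fin 3) (Fin j) ℂ)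
    (h : ∀ i, dt (fun k => T k i) w = 0) : ∃ S : Matrix (Fin 3) (Fin j) ℂ, T = Mw w * S := by
  have key : ∀ z : Fin 3 → ℂ, dt z w = 0 → ∃ y, cr y w = z := by
    intro z hz
    rw [dt_eq] at hz
    by_cases h0 : w 0 = 0
    · by_cases h1 : w 1 = 0
      · have h2 : w 2 ≠ 0 := by
          intro h2
          apply hw
          funext i
          fin_cases i
          · exact h0
          · exact h1
          · exact h2
        rw [h0, h1, mul_zero, mul_zero, zero_add, zero_add] at hz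
        have hz2 : z 2 = 0 := (mul_eq_zero.1 hz).resolve_right h2
        refine ⟨![-(z 1 / w 2), z 0 / w 2, 0], ?_⟩
        funext i
        fin_cases i
        · simp [cr]
          field_simp
        · simp [cr]
          field_simp
        · simp [cr, h0, h1, hz2]
      · refine ⟨![z 2 / w 1, 0, -(z 0 / w 1)], ?_⟩
        funext i
        fin_cases i
        · simp [cr]
          field_simp
        · simp [cr, h0]
          field_simp
          rw [h0] at hz
          linear_combination -hz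
        · simp [cr]
          field_simp
    · refine ⟨![0, -(z 2 / w 0), z 1 / w 0], ?_⟩
      funext i
      fin_cases i
      · simp [cr]
        field_simp
        linear_combination -hz
      · simp [cr]
        field_simp
      · simp [cr]
        field_simp
  choose y hy using fun i => key _ (h i)
  refine ⟨fun k i => y i k, ?_⟩
  ext k i
  have h1 := congrFun (hy i) k
  rw [← Mw_mulVec] at h1
  exact h1.symm

/-- first condition: the restriction to the plane has dimension at least 3 -/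
def G1 (V : Submodule ℂ (Pol 3)) (w : Fin 3 → ℂ) : Prop := 3 ≤ rk V (Mw w)

/-- second condition: no common zero in the plane -/
def G2 (p : Fin 4 → Pol 3) (w : Fin 3 → ℂ) : Prop :=
  ∀ z : Fin 3 → ℂ, z ≠ 0 → dt z w = 0 → ∃ j, eval z (p j) ≠ 0

theorem exists_perp (T : Matrix (Fin 3) (Fin 2) ℂ) :
    ∃ w : Fin 3 → ℂ, w ≠ 0 ∧ ∀ i, dt (fun k => T k i) w = 0 := by
  have h1 : LinearMap.ker (Matrix.toLin' T.transpose) ≠ ⊥ := by
    apply LinearMap.ker_ne_bot_of_finrank_lt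
    simp
  obtain ⟨w, hw, hw0⟩ := (Submodule.ne_bot_iff _).1 h1
  refine ⟨w, hw0, fun i => ?_⟩
  have h2 := congrFun (LinearMap.mem_ker.1 hw) i
  rw [Matrix.toLin'_apply] at h2
  exact h2

theorem exists_G1 (V : Submodule ℂ (Pol 3)) (hV : Module.Finite ℂ V) (h : mx V 2 = 3) :
    ∃ w, G1 V w := by
  obtain ⟨T, hT⟩ := (pB1 3 V hV).1 2
  obtain ⟨w, hw0, hw⟩ := exists_perp T
  obtain ⟨S, rfl⟩ := factor hw0 T hw
  refine ⟨w, ?_⟩
  rw [h] at hT
  have := rk_mul_le V hV (Mw w) S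
  unfold G1
  omega

/-- a line of vectors -/
def lw (w₀ w₁ : Fin 3 → ℂ) (t : ℂ) : Fin 3 → ℂ := fun i => (w₁ i - w₀ i) * t + w₀ i

theorem lw_zero (w₀ w₁ : Fin 3 → ℂ) : lw w₀ w₁ 0 = w₀ := by
  funext i
  simp [lw]

theorem lw_one (w₀ w₁ : Fin 3 → ℂ) : lw w₀ w₁ 1 = w₁ := by
  funext i
  simp [lw]

theorem G1_line (V : Submodule ℂ (Pol 3)) (hV : Module.Finite ℂ V) (w₀ w₁ : Fin 3 → ℂ) (t₁ : ℂ)
    (h : G1 V (lw w₀ w₁ t₁)) : {t | ¬ G1 V (lw w₀ w₁ t)}.Finite := by
  have h1 := pB2 3 3 V hV (Mw fun i => ln (w₁ i - w₀ i) (w₀ i)) t₁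
  refine h1.subset fun t ht => ?_
  have h2 : ∀ t, (fun i => (ln (w₁ i - w₀ i) (w₀ i)).eval t) = lw w₀ w₁ t := by
    intro t
    funext i
    exact ln_eval _ _ _
  show rk V _ < rk V _
  rw [Mw_eval, Mw_eval, h2, h2]
  unfold G1 at h ht
  have ht' : ¬ 3 ≤ rk V (Mw (lw w₀ w₁ t)) := ht
  omega

theorem aeval_line (Δ : Pol 3) (w₀ w₁ : Fin 3 → ℂ) (t : ℂ) :
    (aeval (fun i => ln (w₁ i - w₀ i) (w₀ i)) Δ : Polynomial ℂ).eval t =
      eval (lw w₀ w₁ t) Δ := by
  have h2 : (fun i => (ln (w₁ i - w₀ i) (w₀ i)).eval t) = lw w₀ w₁ t := by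
    funext i
    exact ln_eval _ _ _
  rw [← h2]
  induction Δ using MvPolynomial.induction_on with
  | C a => simp
  | add p q hp hq => rw [map_add, map_add, Polynomial.eval_add, hp, hq]
  | mul_X p i hp => rw [map_mul, map_mul, Polynomial.eval_mul, hp, aeval_X, eval_X]

theorem poly_line (Δ : Pol 3) (w₀ w₁ : Fin 3 → ℂ) (t₁ : ℂ) (h : eval (lw w₀ w₁ t₁) Δ ≠ 0) :
    {t | eval (lw w₀ w₁ t) Δ = 0}.Finite := by
  have h1 := aeval_line Δ w₀ w₁
  have h3 : (aeval (fun i => ln (w₁ i - w₀ i) (w₀ i)) Δ : Polynomial ℂ) ≠ 0 := by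
    intro h0
    apply h
    rw [← h1, h0, Polynomial.eval_zero]
  refine (Polynomial.finite_setOfPred_isRoot h3).subset fun t ht => ?_
  show Polynomial.IsRoot _ _
  rw [Polynomial.IsRoot.def, h1]
  exact ht

theorem exists_G1_poly (V : Submodule ℂ (Pol 3)) (hV : Module.Finite ℂ V) (h : mx V 2 = 3)
    (Δ : Pol 3) (hΔ : Δ ≠ 0) : ∃ w, G1 V w ∧ eval w Δ ≠ 0 := by
  obtain ⟨w₀, h0⟩ := exists_G1 V hV h
  obtain ⟨w₁, h1⟩ : ∃ w, eval w Δ ≠ 0 := by
    by_contra hcon
    push Not at hcon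
    apply hΔ
    apply MvPolynomial.funext
    intro w
    rw [hcon w, map_zero]
  have e1 := G1_line V hV w₀ w₁ 0 (by rwa [lw_zero])
  have e2 := poly_line Δ w₀ w₁ 1 (by rwa [lw_one])
  obtain ⟨t, ht⟩ := (e1.union e2).infinite_compl.nonempty
  rw [Set.mem_compl_iff, Set.mem_union, not_or] at ht
  exact ⟨lw w₀ w₁ t, by_contra fun h => ht.1 h, ht.2⟩

/-- the first plane without common zeros -/
theorem exists_G2 {N : ℕ} (hN : N ≠ 0) (p : Fin 4 → Pol 3) (hp : ∀ j, (p j).IsHomogeneous N)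
    (T : Matrix (Fin 3) (Fin 2) ℂ)
    (hT : ∀ x : Fin 2 → ℂ, x ≠ 0 → ∃ j, eval (T.mulVec x) (p j) ≠ 0) : ∃ w, G2 p w := by
  have hinj : ∀ x : Fin 2 → ℂ, T.mulVec x = 0 → x = 0 := by
    intro x hx
    by_contra hx0
    obtain ⟨j, hj⟩ := hT x hx0
    apply hj
    rw [hx]
    exact eval_zero_of_hom (hp j) hN
  set w : Fin 3 → ℂ := cr (fun k => T k 0) (fun k => T k 1) with hw
  refine ⟨w, fun z hz0 hzw => ?_⟩
  set M : Matrix (Fin 3) (Fin 3) ℂ := ![fun k => T k 0, fun k => T k 1, z] with hM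
  have hdet : M.det = 0 := by
    rw [Matrix.det_fin_three]
    rw [dt_eq, hw, cr_0, cr_1, cr_2] at hzw
    simp only [hM, Matrix.cons_val_zero, Matrix.cons_val_one, Matrix.cons_val]
    linear_combination hzw
  obtain ⟨c, hc0, hc⟩ := Matrix.exists_vecMul_eq_zero_iff.2 hdet
  have hc' : ∀ k, c 0 * T k 0 + c 1 * T k 1 + c 2 * z k = 0 := by
    intro k
    have := congrFun hc k
    simpa [Matrix.vecMul, dotProduct, Fin.sum_univ_three, hM] using this
  have hc2 : c 2 ≠ 0 := by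
    intro h2
    apply hc0
    have h3 : T.mulVec ![c 0, c 1] = 0 := by
      funext k
      simp only [Matrix.mulVec, dotProduct, Fin.sum_univ_two, Matrix.cons_val_zero,
        Matrix.cons_val_one, Pi.zero_apply]
      have := hc' k
      rw [h2] at this
      linear_combination this
    have h4 := hinj _ h3
    have h5 : c 0 = 0 := congrFun h4 0
    have h6 : c 1 = 0 := congrFun h4 1
    funext i
    fin_cases i
    · exact h5
    · exact h6
    · exact h2
  have hz : T.mulVec ![-(c 0 / c 2), -(c 1 / c 2)] = z := by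
    funext k
    simp only [Matrix.mulVec, dotProduct, Fin.sum_univ_two, Matrix.cons_val_zero,
      Matrix.cons_val_one]
    have := hc' k
    field_simp
    linear_combination -this
  obtain ⟨j, hj⟩ := hT ![-(c 0 / c 2), -(c 1 / c 2)] (by
    intro h0
    apply hz0
    rw [← hz, h0, Matrix.mulVec_zero])
  refine ⟨j, ?_⟩
  rwa [hz] at hj

/-- the second condition is open -/
theorem G2_open {N : ℕ} (p : Fin 4 → Pol 3) (hp : ∀ j, (p j).IsHomogeneous N)
    (w₀ w₁ : Fin 3 → ℂ) (h : G2 p w₀) : ∀ᶠ t in nhds (0 : ℂ), G2 p (lw w₀ w₁ t) := by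
  have hcont : Continuous fun x : ℂ × (Fin 3 → ℂ) =>
      ‖dt x.2 (lw w₀ w₁ x.1)‖ + ∑ j, ‖eval x.2 (p j)‖ := by
    unfold dt lw
    refine Continuous.add ?_ ?_
    · fun_prop
    · refine continuous_finsetSum _ fun j _ => ?_
      exact ((MvPolynomial.continuous_eval (p j)).comp continuous_snd).norm
  have h1 : ∀ᶠ t in nhds (0 : ℂ), ∀ z ∈ Metric.sphere (0 : Fin 3 → ℂ) 1,
      0 < ‖dt z (lw w₀ w₁ t)‖ + ∑ j, ‖eval z (p j)‖ := by
    apply IsCompact.eventually_forall_of_forall_eventually (isCompact_sphere _ _)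
    intro z hz
    have h2 : 0 < ‖dt z (lw w₀ w₁ 0)‖ + ∑ j, ‖eval z (p j)‖ := by
      rw [lw_zero]
      have hz0 : z ≠ 0 := by
        rintro rfl
        simp at hz
      by_cases h3 : dt z w₀ = 0
      · obtain ⟨j, hj⟩ := h z hz0 h3
        have h4 : 0 < ∑ j, ‖eval z (p j)‖ :=
          Finset.sum_pos' (fun _ _ => norm_nonneg _) ⟨j, Finset.mem_univ _, norm_pos_iff.2 hj⟩
        have h5 := norm_nonneg (dt z w₀)
        linarith
      · have h4 : 0 ≤ ∑ j, ‖eval z (p j)‖ := Finset.sum_nonneg fun _ _ => norm_nonneg _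
        have h5 := norm_pos_iff.2 h3
        linarith
    exact (hcont.continuousAt (x := ((0 : ℂ), z))).eventually (lt_mem_nhds h2)
  filter_upwards [h1] with t ht z hz0 hzw
  by_contra hcon
  push Not at hcon
  have hn : (‖z‖ : ℂ) ≠ 0 := by
    exact_mod_cast norm_ne_zero_iff.2 hz0
  set c : ℂ := (‖z‖ : ℂ)⁻¹ with hc
  have h2 := ht (fun i => c * z i) (by
    rw [mem_sphere_zero_iff_norm]
    have : (fun i => c * z i) = c • z := rfl
    rw [this, norm_smul, hc, norm_inv, Complex.norm_real, norm_norm]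
    exact inv_mul_cancel₀ (norm_ne_zero_iff.2 hz0))
  have h3 : dt (fun i => c * z i) (lw w₀ w₁ t) = 0 := by
    have : dt (fun i => c * z i) (lw w₀ w₁ t) = c * dt z (lw w₀ w₁ t) := by
      rw [dt_eq, dt_eq]
      ring
    rw [this, hzw, mul_zero]
  have h4 : ∀ j, eval (fun i => c * z i) (p j) = 0 := by
    intro j
    rw [Pool.Agent.W2helper15.SOS.hom_eval (hp j), hcon j, mul_zero]
  rw [h3] at h2
  simp only [h4, norm_zero, Finset.sum_const_zero, add_zero, lt_irrefl] at h2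

/-- **the choice of the plane** -/
theorem choice {N : ℕ} (hN : N ≠ 0) (p : Fin 4 → Pol 3) (hp : ∀ j, (p j).IsHomogeneous N)
    (V : Submodule ℂ (Pol 3)) (hV : Module.Finite ℂ V) (h : mx V 2 = 3)
    (T : Matrix (Fin 3) (Fin 2) ℂ)
    (hT : ∀ x : Fin 2 → ℂ, x ≠ 0 → ∃ j, eval (T.mulVec x) (p j) ≠ 0) (Δ : Pol 3) (hΔ : Δ ≠ 0) :
    ∃ w, G1 V w ∧ G2 p w ∧ eval w Δ ≠ 0 := by
  obtain ⟨w₀, h0⟩ := exists_G2 hN p hp T hT
  obtain ⟨w₁, h1, h1'⟩ := exists_G1_poly V hV h Δ hΔ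
  have e1 := G1_line V hV w₀ w₁ 1 (by rwa [lw_one])
  have e2 := poly_line Δ w₀ w₁ 1 (by rwa [lw_one])
  have e3 := G2_open p hp w₀ w₁ h0
  have e4 : ∀ᶠ t in nhdsWithin (0 : ℂ) {0}ᶜ,
      t ∉ {t | ¬ G1 V (lw w₀ w₁ t)} ∪ {t | eval (lw w₀ w₁ t) Δ = 0} :=
    nhdsNE_le_cofinite _ (e1.union e2).compl_mem_cofinite
  obtain ⟨t, ht1, ht2⟩ := (e4.and (e3.filter_mono nhdsWithin_le_nhds)).exists
  rw [Set.mem_union, not_or] at ht1
  exact ⟨lw w₀ w₁ t, by_contra fun h => ht1.1 h, ht2, ht1.2⟩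

end Pool.Agent.W2helper12.SOS.K4
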