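import Pool.Agent.W2helper12.SOS.K4b

/-!
# MP_ce7760_an : piece K4, part c (the degree bound)
-/

set_option autoImplicit false

open MvPolynomial

namespace Pool.Agent.W2helper12.SOS.K4

open Pool.Agent.W2helper74.SOS
open Pool.Agent.W2helper9.SOS (mat mat_castSucc mat_last mn det_mat sum_row_mn)

theorem pderiv_comm' {n : ℕ} (i k : Fin n) (p : Pol n) :
    pderiv i (pderiv k p) = pderiv k (pderiv i p) := by
  have h : (⁅(pderiv i : Derivation ℂ (Pol n) (Pol n)), pderiv k⁆ : Derivation ℂ (Pol n) (Pol n)) = 0 := by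
    apply MvPolynomial.derivation_ext
    intro j
    rw [Derivation.commutator_apply, Derivation.zero_apply, pderiv_X, pderiv_X]
    simp only [Pi.single_apply]
    split_ifs <;> simp
  have h1 := DFunLike.congr_fun h p
  rw [Derivation.commutator_apply, Derivation.zero_apply] at h1
  exact sub_eq_zero.1 h1

theorem pderiv_lf (k : Fin 3) (z : Fin 3 → ℂ) : pderiv k (lf z) = C (z k) := by
  classical
  unfold lf
  rw [map_sum, Finset.sum_eq_single k]
  · rw [pderiv_C_mul, pderiv_X_self, mul_one]
  · intro b _ hb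
    rw [pderiv_C_mul, pderiv_X_of_ne hb, mul_zero]
  · intro h
    exact absurd (Finset.mem_univ _) h

section data

variable {r D : ℕ} (d : Dat 3 4 r D)

/-- conjugate coefficients -/
noncomputable def P (j : Fin 4) : Pol 3 := map (starRingEnd ℂ) (d.p j)

/-- `A(z, w)` as a polynomial in `w` -/
noncomputable def B (z : Fin 3 → ℂ) : Pol 3 :=
  ∑ i, ∑ l, C (d.a i l * eval z (d.e i)) * map (starRingEnd ℂ) (d.e l)

/-- `A(z, w)` as a polynomial in `z` -/
noncomputable def Aw (w : Fin 3 → ℂ) : Pol 3 :=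
  ∑ i, ∑ l, C (d.a i l * eval w (map (starRingEnd ℂ) (d.e l))) * d.e i

theorem Aw_hom (w : Fin 3 → ℂ) : (Aw d w).IsHomogeneous D := by
  unfold Aw
  refine IsHomogeneous.sum _ _ _ fun i _ => IsHomogeneous.sum _ _ _ fun l _ => ?_
  have := (isHomogeneous_C (Fin 3) (d.a i l * eval w (map (starRingEnd ℂ) (d.e l)))).mul (d.e_hom i)
  rwa [zero_add] at this

theorem eval_Aw (z w : Fin 3 → ℂ) : eval z (Aw d w) = eval w (B d z) := by
  unfold Aw B
  simp only [map_sum, map_mul, eval_C]
  refine Finset.sum_congr rfl fun i _ => Finset.sum_congr rfl fun l _ => ?_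
  ring

theorem P_hom (j : Fin 4) : (P d j).IsHomogeneous (D + 1) := (d.p_hom j).map _

theorem eval_lf' (z w : Fin 3 → ℂ) : eval w (lf z) = dt z w :=
  Pool.Agent.W2helper17.SOS.eval_lf w z

theorem ident (z : Fin 3 → ℂ) : ∑ j, C (eval z (d.p j)) * P d j = lf z * B d z := by
  apply MvPolynomial.funext
  intro w
  have h := d.main z (star w)
  simp only [Pool.Agent.W2helper17.SOS.star_eval, Pi.star_apply, star_star] at h
  rw [map_mul, eval_lf', dt, B]
  simp only [map_sum, map_mul, eval_C]
  exact h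

theorem ident1 (z : Fin 3 → ℂ) (k : Fin 3) : ∑ j, C (eval z (d.p j)) * pderiv k (P d j) =
    C (z k) * B d z + lf z * pderiv k (B d z) := by
  have h := congrArg (pderiv k) (ident d z)
  rw [map_sum, pderiv_mul, pderiv_lf] at h
  rw [← h]
  exact Finset.sum_congr rfl fun j _ => (pderiv_C_mul).symm

theorem ident2 (z : Fin 3 → ℂ) (i k : Fin 3) :
    ∑ j, C (eval z (d.p j)) * pderiv i (pderiv k (P d j)) =
    C (z k) * pderiv i (B d z) + (C (z i) * pderiv k (B d z) +
      lf z * pderiv i (pderiv k (B d z))) := by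
  have h := congrArg (pderiv i) (ident1 d z k)
  rw [map_sum, map_add, pderiv_C_mul, pderiv_mul, pderiv_lf] at h
  rw [← h]
  exact Finset.sum_congr rfl fun j _ => (pderiv_C_mul).symm

/-- first derivatives at a point -/
noncomputable def Pv (w : Fin 3 → ℂ) (k : Fin 3) (j : Fin 4) : ℂ := eval w (pderiv k (P d j))

/-- second derivatives at a point -/
noncomputable def Pvv (w : Fin 3 → ℂ) (i k : Fin 3) (j : Fin 4) : ℂ :=
  eval w (pderiv i (pderiv k (P d j)))

theorem I0 (z w : Fin 3 → ℂ) (h : dt z w = 0) : ∑ j, eval w (P d j) * eval z (d.p j) = 0 := by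
  have h1 := congrArg (eval w) (ident d z)
  rw [map_mul, eval_lf', h, zero_mul, map_sum] at h1
  rw [← h1]
  refine Finset.sum_congr rfl fun j _ => ?_
  rw [map_mul, eval_C, mul_comm]

theorem I1 (z w : Fin 3 → ℂ) (h : dt z w = 0) (k : Fin 3) :
    ∑ j, Pv d w k j * eval z (d.p j) = z k * eval z (Aw d w) := by
  have h1 := congrArg (eval w) (ident1 d z k)
  rw [map_add, map_mul, map_mul, eval_lf', h, zero_mul, add_zero, eval_C, ← eval_Aw, map_sum] at h1
  rw [← h1]
  refine Finset.sum_congr rfl fun j _ => ?_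
  rw [map_mul, eval_C, mul_comm]
  rfl

theorem I2 (z w η : Fin 3 → ℂ) (h : dt z w = 0) (hη : dt η z = 0) :
    ∑ i, ∑ k, η i * η k * ∑ j, Pvv d w i k j * eval z (d.p j) = 0 := by
  have h1 : ∀ i k, ∑ j, Pvv d w i k j * eval z (d.p j) =
      z k * eval w (pderiv i (B d z)) + z i * eval w (pderiv k (B d z)) := by
    intro i k
    have h1 := congrArg (eval w) (ident2 d z i k)
    rw [map_add, map_add, map_mul, map_mul, map_mul, eval_lf', h, zero_mul, add_zero, eval_C,
      eval_C, map_sum] at h1
    rw [← h1]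
    refine Finset.sum_congr rfl fun j _ => ?_
    rw [map_mul, eval_C, mul_comm]
    rfl
  simp only [h1]
  rw [dt_eq] at hη
  simp only [Fin.sum_univ_three]
  generalize eval w (pderiv 0 (B d z)) = b0
  generalize eval w (pderiv 1 (B d z)) = b1
  generalize eval w (pderiv 2 (B d z)) = b2
  linear_combination (2 * (η 0 * b0 + η 1 * b1 + η 2 * b2)) * hη

theorem euler1 (w : Fin 3 → ℂ) (j : Fin 4) :
    ∑ k, w k * Pv d w k j = ((D : ℂ) + 1) * eval w (P d j) := by
  have h := congrArg (eval w) (P_hom d j).sum_X_mul_pderiv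
  rw [map_sum, nsmul_eq_mul, map_mul, map_natCast] at h
  push_cast at h
  rw [← h]
  refine Finset.sum_congr rfl fun k _ => ?_
  rw [map_mul, eval_X]
  rfl

theorem euler2 (w : Fin 3 → ℂ) (k : Fin 3) (j : Fin 4) :
    ∑ i, w i * Pvv d w i k j = (D : ℂ) * Pv d w k j := by
  have h0 : (pderiv k (P d j)).IsHomogeneous D := (P_hom d j).pderiv
  have h := congrArg (eval w) h0.sum_X_mul_pderiv
  rw [map_sum, nsmul_eq_mul, map_mul, map_natCast] at h
  rw [Pv, ← h]
  refine Finset.sum_congr rfl fun i _ => ?_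
  rw [map_mul, eval_X]
  rfl

theorem Pvv_comm (w : Fin 3 → ℂ) (i k : Fin 3) : Pvv d w i k = Pvv d w k i := by
  funext j
  unfold Pvv
  rw [pderiv_comm']

theorem V_fin : Module.Finite ℂ d.V := by
  unfold Dat.V
  exact Module.Finite.span_of_finite ℂ (Set.finite_range _)

/-- the kernel of the restriction to the plane is one dimensional -/
theorem ker1 (w : Fin 3 → ℂ) (hw : G1 d.V w) (c c' : Fin 4 → ℂ)
    (hc : ∀ z, dt z w = 0 → ∑ j, c j * eval z (d.p j) = 0)
    (hc' : ∀ z, dt z w = 0 → ∑ j, c' j * eval z (d.p j) = 0) :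
    ∃ (u : Fin 4 → ℂ) (a b : ℂ), c = a • u ∧ c' = b • u := by
  set L : (Fin 4 → ℂ) →ₗ[ℂ] Pol 3 :=
    (res (Mw w)).toLinearMap ∘ₗ (Fintype.linearCombination ℂ d.p) with hL
  have h1 : LinearMap.range L = rs d.V (Mw w) := by
    rw [hL, LinearMap.range_comp, Fintype.range_linearCombination]
    rfl
  have h2 := LinearMap.finrank_range_add_finrank_ker L
  rw [h1, Module.finrank_fin_fun] at h2
  have h3 : Module.finrank ℂ (LinearMap.ker L) ≤ 1 := by
    have h4 : 3 ≤ Module.finrank ℂ (rs d.V (Mw w)) := hw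
    omega
  obtain ⟨u, hu⟩ := finrank_le_one_iff.1 h3
  have hmem : ∀ c : Fin 4 → ℂ, (∀ z, dt z w = 0 → ∑ j, c j * eval z (d.p j) = 0) →
      c ∈ LinearMap.ker L := by
    intro c hc
    rw [LinearMap.mem_ker]
    apply MvPolynomial.funext
    intro y
    rw [map_zero]
    have e1 : L c = res (Mw w) (∑ j, c j • d.p j) := rfl
    rw [e1, eval_res, Mw_mulVec, map_sum]
    have e2 : dt (cr y w) w = 0 := by
      rw [dt_eq, cr_0, cr_1, cr_2]
      ring
    rw [← hc _ e2]
    refine Finset.sum_congr rfl fun j _ => ?_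
    rw [smul_eval]
  obtain ⟨a, ha⟩ := hu ⟨c, hmem c hc⟩
  obtain ⟨b, hb⟩ := hu ⟨c', hmem c' hc'⟩
  exact ⟨u, a, b, (congrArg Subtype.val ha).symm, (congrArg Subtype.val hb).symm⟩

theorem P_ind : LinearIndependent ℂ (P d) := by
  rw [Fintype.linearIndependent_iff]
  intro g hg
  have h1 : ∑ j, (starRingEnd ℂ (g j)) • d.p j = 0 := by
    apply MvPolynomial.funext
    intro z
    rw [map_zero, map_sum]
    have h2 := congrArg (eval (star z)) hg
    rw [map_sum, map_zero] at h2
    have h3 := congrArg star h2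
    rw [star_zero, star_sum] at h3
    rw [← h3]
    refine Finset.sum_congr rfl fun j _ => ?_
    rw [smul_eval, smul_eval, star_mul', P, ← Pool.Agent.W2helper17.SOS.star_eval, star_star,
      star_star]
    rfl
  intro i
  have h2 := Fintype.linearIndependent_iff.1 d.p_ind _ h1 i
  exact (map_eq_zero _).1 h2

/-- there is a point of the plane with `A ≠ 0`, first version -/
theorem first (hV : mx d.V 2 = 3) (hwron : Wron) :
    ∃ w, w ≠ 0 ∧ LinearIndependent ℂ (Pv d w) := by
  -- the Wronskian
  obtain ⟨k, hk⟩ : ∃ k, P d 0 * pderiv k (P d 1) - P d 1 * pderiv k (P d 0) ≠ 0 := by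
    by_contra hcon
    push Not at hcon
    obtain ⟨s, t, hst, h⟩ := hwron 3 (P d 0) (P d 1) fun i => by
      have := hcon i
      linear_combination this
    have h1 : LinearIndependent ℂ ![P d 0, P d 1] := by
      have h2 : ![P d 0, P d 1] = P d ∘ ![(0 : Fin 4), 1] := by
        funext i
        fin_cases i <;> rfl
      rw [h2]
      apply (P_ind d).comp
      intro a b hab
      fin_cases a <;> fin_cases b <;> simp_all
    rw [LinearIndependent.pair_iff] at h1
    obtain ⟨e1, e2⟩ := h1 s (-t) (by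
      rw [neg_smul, ← sub_eq_add_neg, sub_eq_zero, smul_eq_C_mul, smul_eq_C_mul]
      exact h)
    rcases hst with h | h
    · exact h e1
    · exact h (neg_eq_zero.1 e2)
  obtain ⟨w, hw1, hw2⟩ := exists_G1_poly d.V (V_fin d) hV _ hk
  rw [map_sub, map_mul, map_mul] at hw2
  have hw0 : w ≠ 0 := by
    rintro rfl
    apply hw2
    rw [eval_zero_of_hom (P_hom d 0) (by omega), eval_zero_of_hom (P_hom d 1) (by omega)]
    ring
  refine ⟨w, hw0, ?_⟩
  have hP : ∃ j, eval w (P d j) ≠ 0 := by
    by_contra hcon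
    push Not at hcon
    apply hw2
    rw [hcon, hcon]
    ring
  obtain ⟨v, hv, hAv⟩ : ∃ v, dt v w = 0 ∧ eval v (Aw d w) ≠ 0 := by
    by_contra hcon
    push Not at hcon
    obtain ⟨u, a, b, ha, hb⟩ := ker1 d w hw1 (fun j => eval w (P d j)) (Pv d w k)
      (fun z hz => I0 d z w hz) (fun z hz => by rw [I1 d z w hz, hcon z hz, mul_zero])
    apply hw2
    have a0 := congrFun ha 0
    have a1 := congrFun ha 1
    have b0 := congrFun hb 0
    have b1 := congrFun hb 1
    unfold Pv at b0 b1
    rw [b0, b1]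
    simp only [Pi.smul_apply, smul_eq_mul] at a0 a1 ⊢
    rw [a0, a1]
    ring
  rw [Fintype.linearIndependent_iff]
  intro c hc
  have hcz : ∀ z, dt z w = 0 → dt c z = 0 := by
    intro z hz
    have h1 : ∀ y, dt y w = 0 → dt c y * eval y (Aw d w) = 0 := by
      intro y hy
      have h2 : ∑ j, (∑ k, c k * Pv d w k j) * eval y (d.p j) = dt c y * eval y (Aw d w) := by
        simp only [Finset.sum_mul]
        rw [Finset.sum_comm, dt, Finset.sum_mul]
        refine Finset.sum_congr rfl fun k _ => ?_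
        rw [mul_assoc, ← I1 d y w hy, Finset.mul_sum]
        exact Finset.sum_congr rfl fun j _ => mul_assoc _ _ _
      rw [← h2]
      refine Finset.sum_eq_zero fun j _ => ?_
      have h3 := congrFun hc j
      rw [Finset.sum_apply] at h3
      simp only [Pi.smul_apply, smul_eq_mul, Pi.zero_apply] at h3
      rw [h3, zero_mul]
    obtain ⟨a, ha1, ha2, ha3⟩ := Pool.Agent.W2helper17.SOS.hom_poly (Aw d w) (Aw_hom d w) v z
    have h2 : ln (dt c v) (dt c z) * a = 0 := by
      apply Polynomial.funext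
      intro t
      rw [Polynomial.eval_mul, ln_eval, ha3, Polynomial.eval_zero]
      have h3 : dt c (t • v + z) = dt c v * t + dt c z := by
        rw [dt_eq, dt_eq, dt_eq]
        simp only [Pi.add_apply, Pi.smul_apply, smul_eq_mul]
        ring
      have h4 : dt (t • v + z) w = 0 := by
        have : dt (t • v + z) w = t * dt v w + dt z w := by
          rw [dt_eq, dt_eq, dt_eq]
          simp only [Pi.add_apply, Pi.smul_apply, smul_eq_mul]
          ring
        rw [this, hv, hz, mul_zero, add_zero]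
      rw [← h3]
      exact h1 _ h4
    rcases mul_eq_zero.1 h2 with h | h
    · have := ln_eval (dt c v) (dt c z) 0
      rw [h, Polynomial.eval_zero] at this
      rw [mul_zero, zero_add] at this
      exact this.symm
    · exfalso
      apply hAv
      rw [← ha2, h, Polynomial.coeff_zero]
  have c0 := hcz ![0, -w 2, w 1] (by rw [dt_eq]; simp; ring)
  have c1 := hcz ![-w 2, 0, w 0] (by rw [dt_eq]; simp; ring)
  have c2 := hcz ![-w 1, w 0, 0] (by rw [dt_eq]; simp; ring)
  rw [dt_eq] at c0 c1 c2
  simp only [Matrix.cons_val_zero, Matrix.cons_val_one, Matrix.cons_val] at c0 c1 c2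
  have hcw : ∀ i k, w i * c k = c i * w k := by
    intro i k
    fin_cases i <;> fin_cases k <;> simp only [Fin.zero_eta, Fin.mk_one, Fin.reduceFinMk]
    · ring
    · linear_combination c2
    · linear_combination c1
    · linear_combination -c2
    · ring
    · linear_combination c0
    · linear_combination -c1
    · linear_combination -c0
    · ring
  obtain ⟨j, hj⟩ := hP
  intro i
  have h1 : c i * (((D : ℂ) + 1) * eval w (P d j)) = 0 := by
    rw [← euler1, Finset.mul_sum]
    have h3 := congrFun hc j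
    rw [Finset.sum_apply] at h3
    simp only [Pi.smul_apply, smul_eq_mul, Pi.zero_apply] at h3
    have h4 : ∑ k, c i * (w k * Pv d w k j) = w i * ∑ k, c k * Pv d w k j := by
      rw [Finset.mul_sum]
      refine Finset.sum_congr rfl fun k _ => ?_
      rw [← mul_assoc, ← mul_assoc, hcw]
    rw [h4, h3, mul_zero]
  have hD : (D : ℂ) + 1 ≠ 0 := Nat.cast_add_one_ne_zero D
  rcases mul_eq_zero.1 h1 with h | h
  · exact h
  · exact absurd h (mul_ne_zero hD hj)

end data

/-- three independent vectors have a nonzero minor -/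
theorem exists_minor (v : Fin 3 → Fin 4 → ℂ) (hv : LinearIndependent ℂ v) :
    ∃ a, mn v a ≠ 0 := by
  by_contra hcon
  push Not at hcon
  obtain ⟨c, hc⟩ : ∃ c, c ∉ Submodule.span ℂ (Set.range v) := by
    by_contra hcon2
    push Not at hcon2
    have h1 : Submodule.span ℂ (Set.range v) = ⊤ := by
      rw [eq_top_iff]
      exact fun x _ => hcon2 x
    have h2 := finrank_range_le_card (R := ℂ) v
    rw [Set.finrank, h1, finrank_top, Module.finrank_fin_fun, Fintype.card_fin] at h2
    omega
  have h1 : LinearIndependent ℂ (Fin.snoc (α := fun _ => Fin 4 → ℂ) v c : Fin 4 → Fin 4 → ℂ) := by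
    rw [linearIndependent_finSnoc]
    exact ⟨hv, hc⟩
  have h2 : IsUnit (mat v c) := by
    rw [← Matrix.linearIndependent_rows_iff_isUnit]
    exact h1
  rw [Matrix.isUnit_iff_isUnit_det, det_mat] at h2
  simp only [hcon, mul_zero, Finset.sum_const_zero] at h2
  exact not_isUnit_zero h2

theorem eval_mat (w : Fin 3 → ℂ) (v : Fin 3 → Fin 4 → Pol 3) (u : Fin 4 → Pol 3) :
    eval w (mat v u).det = (mat (fun k j => eval w (v k j)) fun j => eval w (u j)).det := by
  rw [RingHom.map_det]
  congr 1
  ext i j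
  refine Fin.lastCases ?_ (fun i => ?_) i
  · rw [RingHom.mapMatrix_apply, Matrix.map_apply, mat_last, mat_last]
  · rw [RingHom.mapMatrix_apply, Matrix.map_apply, mat_castSucc, mat_castSucc]

/-- **the degree bound** -/
theorem degB (hmx : MxThree) (hwron : Wron) (hhess : Hess) (hbez : Bez) : DegB := by
  intro r D d hprime
  by_contra hD'
  have hD : 3 ≤ D := by omega
  have hV := (hmx r D d).1
  -- Hess
  obtain ⟨i₀, k₀, hik⟩ : ∃ i k : Fin 3, (mat (fun l j => pderiv l (P d j))
      (fun j => pderiv i (pderiv k (P d j)))).det ≠ 0 := by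
    apply hhess (D + 1) (P d) (by omega) (P_hom d) (P_ind d)
    obtain ⟨w, _, hind⟩ := first d hV hwron
    obtain ⟨a, ha⟩ := exists_minor _ hind
    refine ⟨a.succAbove, fun h0 => ha ?_⟩
    have h1 := congrArg (eval w) h0
    rw [RingHom.map_det, map_zero] at h1
    unfold mn
    have h2 : (RingHom.mapMatrix (eval w)) (Matrix.of fun k l : Fin 3 => pderiv k (P d (a.succAbove l)))
        = Matrix.of fun k l : Fin 3 => Pv d w k (a.succAbove l) := by
      ext k l
      rfl
    rw [h2] at h1
    rw [h1, mul_zero]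
  -- Bez
  obtain ⟨T, hT⟩ := hbez (D + 1) d.p d.p_hom ⟨0, d.p_ind.ne_zero 0⟩ hprime
  obtain ⟨w, hw1, hw2, hw3⟩ := choice (Nat.succ_ne_zero D) d.p d.p_hom d.V (V_fin d) hV T hT _ hik
  rw [eval_mat] at hw3
  set c : Fin 4 → ℂ := Pvv d w i₀ k₀ with hc
  have hdet : (mat (Pv d w) c).det ≠ 0 := hw3
  have hrows : LinearIndependent ℂ (mat (Pv d w) c) := by
    have h1 : IsUnit (mat (Pv d w) c) := by
      rw [Matrix.isUnit_iff_isUnit_det]
      exact isUnit_iff_ne_zero.2 hdet
    exact Matrix.linearIndependent_rows_iff_isUnit.2 h1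
  have hind : LinearIndependent ℂ (Pv d w) := by
    have h1 := hrows.comp (Fin.castSucc : Fin 3 → Fin 4) (Fin.castSucc_injective 3)
    have h2 : (mat (Pv d w) c) ∘ (Fin.castSucc : Fin 3 → Fin 4) = Pv d w := by
      funext k
      exact mat_castSucc _ _ _
    rwa [h2] at h1
  have hw0 : w ≠ 0 := by
    rintro rfl
    apply hind.ne_zero 0
    funext j
    exact eval_zero_of_hom (P_hom d j).pderiv (by omega)
  obtain ⟨k₁, hk₁⟩ : ∃ k, w k ≠ 0 := Function.ne_iff.1 hw0
  set q : Fin 3 → ℂ := Pi.single k₁ 1 with hq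
  have hqw : dt q w ≠ 0 := by
    have : dt q w = w k₁ := by
      rw [dt, Finset.sum_eq_single k₁]
      · rw [hq, Pi.single_eq_same, one_mul]
      · intro b _ hb
        rw [hq, Pi.single_eq_of_ne hb, zero_mul]
      · intro h
        exact absurd (Finset.mem_univ _) h
    rw [this]
    exact hk₁
  have hAv : ∃ v, dt v w = 0 ∧ eval v (Aw d w) ≠ 0 := by
    by_contra hcon
    push Not at hcon
    obtain ⟨u, a, b, ha, hb⟩ := ker1 d w hw1 (Pv d w 0) (Pv d w 1)
      (fun z hz => by rw [I1 d z w hz, hcon z hz, mul_zero])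
      (fun z hz => by rw [I1 d z w hz, hcon z hz, mul_zero])
    have h1 : LinearIndependent ℂ ![Pv d w 0, Pv d w 1] := by
      have h2 : ![Pv d w 0, Pv d w 1] = Pv d w ∘ ![(0 : Fin 3), 1] := by
        funext i
        fin_cases i <;> rfl
      rw [h2]
      apply hind.comp
      intro a b hab
      fin_cases a <;> fin_cases b <;> simp_all
    rw [LinearIndependent.pair_iff] at h1
    obtain ⟨e1, e2⟩ := h1 b (-a) (by rw [ha, hb, neg_smul, smul_comm, add_neg_cancel])
    apply hind.ne_zero 0
    rw [ha, neg_eq_zero.1 e2, zero_smul]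
  set G : Pol 3 := ∑ j, C (c j) * d.p j with hG
  have hGhom : G.IsHomogeneous (D + 1) := by
    rw [hG]
    refine IsHomogeneous.sum _ _ _ fun j _ => ?_
    have := (isHomogeneous_C (Fin 3) (c j)).mul (d.p_hom j)
    rwa [zero_add] at this
  have hGe : ∀ z, eval z G = ∑ j, c j * eval z (d.p j) := by
    intro z
    rw [hG, map_sum]
    exact Finset.sum_congr rfl fun j _ => by rw [map_mul, eval_C]
  have hcop : ∀ z, z ≠ 0 → dt z w = 0 → eval z (Aw d w) = 0 → eval z G = 0 → False := by
    intro z hz0 hzw hA hG0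
    obtain ⟨j, hj⟩ := hw2 z hz0 hzw
    have h1 : (mat (Pv d w) c).mulVec (fun j => eval z (d.p j)) = 0 := by
      funext i
      refine Fin.lastCases ?_ (fun i => ?_) i
      · show ∑ j, mat (Pv d w) c (Fin.last 3) j * eval z (d.p j) = 0
        rw [mat_last, ← hGe, hG0]
      · show ∑ j, mat (Pv d w) c i.castSucc j * eval z (d.p j) = 0
        rw [mat_castSucc, I1 d z w hzw, hA, mul_zero]
    have h2 := Matrix.eq_zero_of_mulVec_eq_zero hdet h1
    exact hj (congrFun h2 j)
  -- coordinates
  set δ : ℂ := (mat (Pv d w) c).det with hδ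
  have hδ' : δ = ∑ j, c j * mn (Pv d w) j := det_mat _ _
  set κ : Fin 3 → Fin 3 → ℂ := fun i k => (∑ j, Pvv d w i k j * mn (Pv d w) j) / δ with hκ
  have hcoord : ∀ x : Fin 4 → ℂ, ∃ s : Fin 3 → ℂ, ∀ j,
      x j = ∑ m, s m * Pv d w m j + (∑ j, x j * mn (Pv d w) j) / δ * c j := by
    intro x
    set y := Matrix.vecMul x (mat (Pv d w) c)⁻¹ with hy
    have h1 : Matrix.vecMul y (mat (Pv d w) c) = x := by
      rw [hy, Matrix.vecMul_vecMul, Matrix.nonsing_inv_mul _ (isUnit_iff_ne_zero.2 hdet),
        Matrix.vecMul_one]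
    have h2 : ∀ j, x j = ∑ m : Fin 3, y m.castSucc * Pv d w m j + y (Fin.last 3) * c j := by
      intro j
      have h3 : x j = ∑ i, y i * mat (Pv d w) c i j := by
        exact (congrFun h1 j).symm
      rw [h3, Fin.sum_univ_castSucc]
      simp only [mat_castSucc, mat_last]
    have h3 : ∑ j, x j * mn (Pv d w) j = y (Fin.last 3) * δ := by
      have h4 : ∑ j, x j * mn (Pv d w) j =
          ∑ j, (∑ m : Fin 3, y m.castSucc * Pv d w m j + y (Fin.last 3) * c j) * mn (Pv d w) j :=
        Finset.sum_congr rfl fun j _ => by rw [← h2]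
      rw [h4]
      simp only [add_mul, Finset.sum_add_distrib, Finset.sum_mul]
      rw [Finset.sum_comm, hδ', Finset.mul_sum]
      have h5 : ∑ m : Fin 3, ∑ j, y m.castSucc * Pv d w m j * mn (Pv d w) j = 0 := by
        refine Finset.sum_eq_zero fun m _ => ?_
        have := sum_row_mn (Pv d w) m
        calc _ = y m.castSucc * ∑ j, Pv d w m j * mn (Pv d w) j := by
              rw [Finset.mul_sum]
              exact Finset.sum_congr rfl fun j _ => mul_assoc _ _ _
          _ = 0 := by rw [this, mul_zero]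
      rw [h5, zero_add]
      exact Finset.sum_congr rfl fun j _ => mul_assoc _ _ _
    refine ⟨fun m => y m.castSucc, fun j => ?_⟩
    rw [h3, mul_div_cancel_right₀ _ hdet]
    exact h2 j
  choose s hs using fun i k => hcoord (Pvv d w i k)
  have hκδ : ∀ i k, κ i k * δ = ∑ j, Pvv d w i k j * mn (Pv d w) j := by
    intro i k
    rw [hκ]
    exact div_mul_cancel₀ _ hdet
  have hfin := core hD w q hqw (Aw d w) G (Aw_hom d w) hGhom hAv hcop κ s
    (fun i k => by rw [hκ]; simp only [Pvv_comm d w i k])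
    (fun z η hzw hηz => by
      have h1 := I2 d z w η hzw hηz
      have h2 : ∀ i k, ∑ j, Pvv d w i k j * eval z (d.p j) =
          (∑ m, s i k m * z m) * eval z (Aw d w) + κ i k * eval z G := by
        intro i k
        have h3 : ∑ j, Pvv d w i k j * eval z (d.p j) =
            ∑ j, (∑ m, s i k m * Pv d w m j + κ i k * c j) * eval z (d.p j) :=
          Finset.sum_congr rfl fun j _ => by rw [← hs]
        rw [h3]
        simp only [add_mul, Finset.sum_add_distrib, Finset.sum_mul]
        rw [Finset.sum_comm, hGe, Finset.mul_sum]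
        congr 1
        · refine Finset.sum_congr rfl fun m _ => ?_
          rw [mul_assoc, ← I1 d z w hzw, Finset.mul_sum]
          exact Finset.sum_congr rfl fun j _ => mul_assoc _ _ _
        · exact Finset.sum_congr rfl fun j _ => mul_assoc _ _ _
      simp only [h2] at h1
      rw [← h1, Q, Finset.sum_mul, Finset.sum_mul, ← Finset.sum_add_distrib]
      refine Finset.sum_congr rfl fun i _ => ?_
      rw [Finset.sum_mul, Finset.sum_mul, ← Finset.sum_add_distrib]
      refine Finset.sum_congr rfl fun k _ => ?_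
      ring)
    (fun k => by
      have h1 : (∑ i, w i * κ i k) * δ = 0 := by
        rw [Finset.sum_mul]
        have h2 : ∀ i, w i * κ i k * δ = ∑ j, (w i * Pvv d w i k j) * mn (Pv d w) j := by
          intro i
          rw [mul_assoc, hκδ, Finset.mul_sum]
          exact Finset.sum_congr rfl fun j _ => (mul_assoc _ _ _).symm
        simp only [h2]
        rw [Finset.sum_comm]
        simp only [← Finset.sum_mul, euler2]
        have h3 := sum_row_mn (Pv d w) k
        calc _ = (D : ℂ) * ∑ j, Pv d w k j * mn (Pv d w) j := by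
              rw [Finset.mul_sum]
              exact Finset.sum_congr rfl fun j _ => mul_assoc _ _ _
          _ = 0 := by rw [h3, mul_zero]
      exact (mul_eq_zero.1 h1).resolve_right hdet)
  have h1 := hκδ i₀ k₀
  rw [hfin, zero_mul, ← hc, ← hδ'] at h1
  exact hdet h1.symm

end Pool.Agent.W2helper12.SOS.K4
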